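import Mathlib
set_option autoImplicit false
open scoped unitInterval ENNReal

namespace Pool.Agent.Results.MP_a0c03c_an.FinDimRadical

/-- The linear span `A^2` of all products `a * b` with `a, b` in `A`. -/
def squareSpan (A : Type) [NonUnitalNormedRing A] [NormedSpace ℂ A] : Submodule ℂ A :=
  Submodule.span ℂ {x : A | ∃ a b : A, x = a * b}

/-- Property (S): there is a constant `C` such that every `x` in `A^2` is a finite sum of products `a i * b i`
with `∑ ‖a i‖ ‖b i‖ ≤ C ‖x‖`. -/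
def PropertyS (A : Type) [NonUnitalNormedRing A] [NormedSpace ℂ A] : Prop :=
  ∃ C : ℝ, ∀ x ∈ squareSpan A, ∃ (n : ℕ) (a b : Fin n → A),
    x = ∑ i, a i * b i ∧ ∑ i, ‖a i‖ * ‖b i‖ ≤ C * ‖x‖

/-- The Jacobson radical of a not necessarily unital algebra `A`: the elements of `A` which lie in the
Jacobson radical of the unitization of `A`. -/
def radical (A : Type) [NonUnitalNormedRing A] [NormedSpace ℂ A] [IsScalarTower ℂ A A]
    [SMulCommClass ℂ A A] : Submodule ℂ A where
  carrier := {a : A | (Unitization.inr a : Unitization ℂ A) ∈ Ring.jacobson (Unitization ℂ A)}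
  add_mem' := by
    intro a b ha hb
    change (Unitization.inr (a + b) : Unitization ℂ A) ∈ Ring.jacobson (Unitization ℂ A)
    rw [Unitization.inr_add]
    exact add_mem ha hb
  zero_mem' := by
    change (Unitization.inr (0 : A) : Unitization ℂ A) ∈ Ring.jacobson (Unitization ℂ A)
    rw [Unitization.inr_zero]
    exact zero_mem _
  smul_mem' := by
    intro c a ha
    change (Unitization.inr (c • a) : Unitization ℂ A) ∈ Ring.jacobson (Unitization ℂ A)
    have h : (Unitization.inr (c • a) : Unitization ℂ A) = Unitization.inl c * Unitization.inr a := by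
      ext <;> simp
    rw [h]
    exact Ideal.mul_mem_left _ _ ha

section rep
variable {A : Type} [NonUnitalNormedRing A] [NormedSpace ℂ A]

def Rep (x : A) (c : ℝ) : Prop :=
  ∃ (n : ℕ) (a b : Fin n → A), x = ∑ i, a i * b i ∧ ∑ i, ‖a i‖ * ‖b i‖ ≤ c

theorem Rep.mono {x : A} {c d : ℝ} (h : Rep x c) (hcd : c ≤ d) : Rep x d := by
  obtain ⟨n, a, b, h1, h2⟩ := h
  exact ⟨n, a, b, h1, h2.trans hcd⟩

theorem Rep.zero : Rep (0 : A) 0 := ⟨0, 0, 0, by simp, by simp⟩

theorem Rep.mul (a b : A) : Rep (a * b) (‖a‖ * ‖b‖) :=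
  ⟨1, fun _ => a, fun _ => b, by simp, by simp⟩

theorem Rep.add {x y : A} {c d : ℝ} (hx : Rep x c) (hy : Rep y d) : Rep (x + y) (c + d) := by
  obtain ⟨n, a, b, h1, h2⟩ := hx
  obtain ⟨m, a', b', h1', h2'⟩ := hy
  refine ⟨n + m, Fin.append a a', Fin.append b b', ?_, ?_⟩
  · rw [Fin.sum_univ_add]
    simp only [Fin.append_left, Fin.append_right]
    rw [h1, h1']
  · rw [Fin.sum_univ_add]
    simp only [Fin.append_left, Fin.append_right]
    exact add_le_add h2 h2'

theorem Rep.sum {ι : Type} (s : Finset ι) (x : ι → A) (c : ι → ℝ) (h : ∀ i ∈ s, Rep (x i) (c i)) :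
    Rep (∑ i ∈ s, x i) (∑ i ∈ s, c i) := by
  classical
  induction s using Finset.induction_on with
  | empty => simpa using Rep.zero
  | insert i s hi ih =>
    rw [Finset.sum_insert hi, Finset.sum_insert hi]
    exact (h i (Finset.mem_insert_self i s)).add (ih (fun j hj => h j (Finset.mem_insert_of_mem hj)))

theorem mem_squareSpan_mul (a b : A) : a * b ∈ squareSpan A := Submodule.subset_span ⟨a, b, rfl⟩

theorem exists_rep [IsScalarTower ℂ A A] {x : A} (hx : x ∈ squareSpan A) :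
    ∃ (n : ℕ) (a b : Fin n → A), x = ∑ i, a i * b i := by
  have : ∃ c, Rep x c := by
    induction hx using Submodule.span_induction with
    | mem y hy =>
      obtain ⟨a, b, rfl⟩ := hy
      exact ⟨_, Rep.mul a b⟩
    | zero => exact ⟨0, Rep.zero⟩
    | add y z _ _ hy hz =>
      obtain ⟨c, hc⟩ := hy
      obtain ⟨d, hd⟩ := hz
      exact ⟨c + d, hc.add hd⟩
    | smul r y _ hy =>
      obtain ⟨c, n, a, b, h1, h2⟩ := hy
      refine ⟨_, n, fun i => r • a i, b, ?_, le_refl _⟩
      rw [h1, Finset.smul_sum]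
      exact Finset.sum_congr rfl (fun i _ => (smul_mul_assoc r (a i) (b i)).symm)
  obtain ⟨c, n, a, b, h1, _⟩ := this
  exact ⟨n, a, b, h1⟩

theorem propertyS_iff : PropertyS A ↔ ∃ C : ℝ, ∀ x ∈ squareSpan A, Rep x (C * ‖x‖) := Iff.rfl

end rep

section cov
variable {A D B : Type} [NonUnitalNormedRing A] [NormedSpace ℂ A] [IsScalarTower ℂ A A] [SMulCommClass ℂ A A]
  [NonUnitalNormedRing D] [NormedSpace ℂ D] [IsScalarTower ℂ D D] [SMulCommClass ℂ D D]
  [NormedRing B] [NormedAlgebra ℂ B]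

structure IsCov (π : D →ₙₐ[ℂ] B) (f : A →ₙₐ[ℂ] C(I, B)) (p : A →ₙₐ[ℂ] D) : Prop where
  norm_eq : ∀ a, ‖a‖ = max ‖f a‖ ‖p a‖
  zero_eq : ∀ a, f a 0 = π (p a)
  surj : ∀ (g : C(I, B)) (d : D), g 0 = π d → ∃ a, f a = g ∧ p a = d

variable {π : D →ₙₐ[ℂ] B} {f : A →ₙₐ[ℂ] C(I, B)} {p : A →ₙₐ[ℂ] D}

theorem IsCov.ext (h : IsCov π f p) {a b : A} (h1 : f a = f b) (h2 : p a = p b) : a = b := by
  have : ‖a - b‖ = 0 := by
    rw [h.norm_eq, map_sub, map_sub, h1, h2]
    simp
  exact sub_eq_zero.mp (norm_eq_zero.mp this)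

theorem IsCov.f_eq_zero (h : IsCov π f p)
    (hB : ∀ T : B, T ≠ 0 → ∃ S : B, ¬ ∃ z : B, z * (1 - S * T) = 1)
    {a : A} (ha : a ∈ radical A) : f a = 0 := by
  by_contra hne
  -- a point t0 ≠ 0 with f a t0 ≠ 0
  have hex : ∃ t0 : I, t0 ≠ 0 ∧ f a t0 ≠ 0 := by
    by_contra hno
    push Not at hno
    apply hne
    have hdense : Dense ({(0 : I)}ᶜ : Set I) := dense_compl_singleton 0
    have hh := Continuous.ext_on hdense (f a).continuous (0 : C(I, B)).continuous
      (fun t ht => by simpa using hno t ht)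
    exact ContinuousMap.ext (fun t => congrFun hh t)
  obtain ⟨t0, ht0, hft0⟩ := hex
  have ht0' : (t0 : ℝ) ≠ 0 := fun hc => ht0 (Subtype.ext hc)
  have ht0'' : ((t0 : ℝ) : ℂ) ≠ 0 := by exact_mod_cast ht0'
  obtain ⟨S, hS⟩ := hB _ hft0
  let y0 : C(I, B) := ⟨fun t => (((t : ℝ) / (t0 : ℝ) : ℝ) : ℂ) • S, by fun_prop⟩
  obtain ⟨y, hy1, hy2⟩ := h.surj y0 0 (by simp [y0])
  have hyt : f y t0 = S := by
    rw [hy1]
    simp [y0, div_self ht0'']
  -- membership in the radical
  have hmem : (Unitization.inr a : Unitization ℂ A) ∈ Ideal.jacobson (⊥ : Ideal (Unitization ℂ A)) := by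
    rw [Ideal.jacobson_bot]
    exact ha
  rw [Ideal.mem_jacobson_iff] at hmem
  obtain ⟨z, hz⟩ := hmem (-(Unitization.inr y))
  rw [Ideal.mem_bot] at hz
  let ev : A →ₙₐ[ℂ] B :=
    { toFun := fun b => f b t0
      map_smul' := by intro c b; simp
      map_zero' := by simp
      map_add' := by intro b c; simp
      map_mul' := by intro b c; simp }
  let F : Unitization ℂ A →ₐ[ℂ] B := Unitization.lift ev
  have hF : ∀ b : A, F (Unitization.inr b) = f b t0 := by
    intro b
    simp [F, ev]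
  have h2 := congrArg F hz
  rw [map_sub, map_add, map_mul, map_mul, map_neg, map_one, map_zero, hF, hF, hyt] at h2
  apply hS
  refine ⟨F z, ?_⟩
  have h4 : F z * (1 - S * f a t0) = (F z * -S * f a t0 + F z - 1) + 1 := by noncomm_ring
  rw [h4, h2, zero_add]

theorem IsCov.mem_radical (h : IsCov π f p) {a : A} (hf : f a = 0) (hp : ∀ d, d * p a = 0) :
    a ∈ radical A := by
  have hba : ∀ b : A, b * a = 0 := by
    intro b
    apply h.ext
    · rw [map_mul, hf, map_zero, mul_zero]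
    · rw [map_mul, hp, map_zero]
  change (Unitization.inr a : Unitization ℂ A) ∈ Ring.jacobson (Unitization ℂ A)
  rw [← Ideal.jacobson_bot, Ideal.mem_jacobson_iff]
  intro y
  refine ⟨1 - Unitization.inr (y.fst • a), ?_⟩
  rw [Ideal.mem_bot]
  have hy : y * (Unitization.inr a : Unitization ℂ A) = Unitization.inr (y.fst • a) := by
    ext
    · simp
    · simp [hba]
  have hy2 : (Unitization.inr (y.fst • a) : Unitization ℂ A) * Unitization.inr (y.fst • a) = 0 := by
    rw [← Unitization.inr_mul, mul_smul_comm, hba, smul_zero, Unitization.inr_zero]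
  rw [mul_assoc, hy, sub_mul, one_mul, hy2]
  abel


theorem continuous_halfPower {V : Type} [NormedAddCommGroup V] [NormedSpace ℂ V] :
    Continuous (fun v : V => (((Real.sqrt ‖v‖)⁻¹ : ℝ) : ℂ) • v) := by
  rw [continuous_iff_continuousAt]
  intro v
  by_cases hv : v = 0
  · subst hv
    rw [ContinuousAt, norm_zero, Real.sqrt_zero, inv_zero, Complex.ofReal_zero, zero_smul]
    rw [tendsto_zero_iff_norm_tendsto_zero]
    have h1 : Filter.Tendsto (fun v : V => Real.sqrt ‖v‖) (nhds 0) (nhds 0) := by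
      have : Continuous (fun v : V => Real.sqrt ‖v‖) := by fun_prop
      have h := this.tendsto 0
      simpa using h
    refine h1.congr ?_
    intro w
    rw [norm_smul, Complex.norm_real, norm_inv, Real.norm_of_nonneg (Real.sqrt_nonneg _)]
    by_cases hw : ‖w‖ = 0
    · simp [hw]
    · have hpos : 0 < Real.sqrt ‖w‖ := Real.sqrt_pos.mpr (lt_of_le_of_ne (norm_nonneg _) (Ne.symm hw))
      have h2 : ‖w‖ = Real.sqrt ‖w‖ * Real.sqrt ‖w‖ := (Real.mul_self_sqrt (norm_nonneg _)).symm
      field_simp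
      rw [sq]
      exact h2.symm
  · have hne : Real.sqrt ‖v‖ ≠ 0 := by
      rw [Real.sqrt_ne_zero (norm_nonneg _)]
      exact norm_ne_zero_iff.mpr hv
    have h0 : ContinuousAt (fun v : V => Real.sqrt ‖v‖) v :=
      (Real.continuous_sqrt.comp continuous_norm).continuousAt
    have h1 : ContinuousAt (fun v : V => (Real.sqrt ‖v‖)⁻¹) v := h0.inv₀ hne
    have h2 : ContinuousAt (fun v : V => (((Real.sqrt ‖v‖)⁻¹ : ℝ) : ℂ)) v :=
      (Complex.continuous_ofReal.continuousAt).comp h1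
    exact h2.smul continuousAt_id

theorem norm_halfPower {V : Type} [NormedAddCommGroup V] [NormedSpace ℂ V] (v : V) :
    ‖(((Real.sqrt ‖v‖)⁻¹ : ℝ) : ℂ) • v‖ = Real.sqrt ‖v‖ := by
  rw [norm_smul, Complex.norm_real, norm_inv, Real.norm_of_nonneg (Real.sqrt_nonneg _)]
  by_cases hw : ‖v‖ = 0
  · simp [hw]
  · have hpos : 0 < Real.sqrt ‖v‖ := Real.sqrt_pos.mpr (lt_of_le_of_ne (norm_nonneg _) (Ne.symm hw))
    have h2 : ‖v‖ = Real.sqrt ‖v‖ * Real.sqrt ‖v‖ := (Real.mul_self_sqrt (norm_nonneg _)).symm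
    field_simp
    rw [sq]
    exact h2

theorem IsCov.rep_of_ker (h : IsCov π f p) (hone : ‖(1 : B)‖ ≤ 1) {k : A} (hk : p k = 0) :
    Rep k ‖k‖ := by
  have hk0 : f k 0 = 0 := by rw [h.zero_eq, hk, map_zero]
  let g1 : C(I, B) := ⟨fun t => ((Real.sqrt ‖f k t‖ : ℝ) : ℂ) • (1 : B), by fun_prop⟩
  let g2 : C(I, B) := ⟨fun t => (((Real.sqrt ‖f k t‖)⁻¹ : ℝ) : ℂ) • f k t,
    (continuous_halfPower (V := B)).comp (f k).continuous⟩
  obtain ⟨a1, ha1, ha1'⟩ := h.surj g1 0 (by simp [g1, hk0])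
  obtain ⟨a2, ha2, ha2'⟩ := h.surj g2 0 (by simp [g2, hk0])
  have hkk : k = a1 * a2 := by
    apply h.ext
    · rw [map_mul, ha1, ha2]
      ext t
      simp only [g1, g2, ContinuousMap.mul_apply, ContinuousMap.coe_mk]
      rw [smul_mul_assoc, one_mul, smul_smul]
      by_cases hz : f k t = 0
      · simp [hz]
      · have hne : Real.sqrt ‖f k t‖ ≠ 0 := by
          rw [Real.sqrt_ne_zero (norm_nonneg _)]
          exact norm_ne_zero_iff.mpr hz
        rw [← Complex.ofReal_mul, mul_inv_cancel₀ hne, Complex.ofReal_one, one_smul]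
    · rw [map_mul, ha1', ha2', hk, mul_zero]
  have hfk : ‖f k‖ = ‖k‖ := by
    rw [h.norm_eq k, hk, norm_zero, max_eq_left (norm_nonneg _)]
  have hn1 : ‖a1‖ ≤ Real.sqrt ‖k‖ := by
    rw [h.norm_eq, ha1', norm_zero, max_eq_left (norm_nonneg _), ha1,
      ContinuousMap.norm_le _ (Real.sqrt_nonneg _)]
    intro t
    have h1 : ‖g1 t‖ = Real.sqrt ‖f k t‖ * ‖(1 : B)‖ := by
      simp only [g1, ContinuousMap.coe_mk, norm_smul, Complex.norm_real]
      rw [Real.norm_of_nonneg (Real.sqrt_nonneg _)]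
    rw [h1]
    calc Real.sqrt ‖f k t‖ * ‖(1 : B)‖ ≤ Real.sqrt ‖f k t‖ * 1 :=
          mul_le_mul_of_nonneg_left hone (Real.sqrt_nonneg _)
      _ = Real.sqrt ‖f k t‖ := mul_one _
      _ ≤ Real.sqrt ‖k‖ := Real.sqrt_le_sqrt (by rw [← hfk]; exact (f k).norm_coe_le_norm t)
  have hn2 : ‖a2‖ ≤ Real.sqrt ‖k‖ := by
    rw [h.norm_eq, ha2', norm_zero, max_eq_left (norm_nonneg _), ha2,
      ContinuousMap.norm_le _ (Real.sqrt_nonneg _)]
    intro t
    have h1 : ‖g2 t‖ = Real.sqrt ‖f k t‖ := norm_halfPower (f k t)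
    rw [h1]
    exact Real.sqrt_le_sqrt (by rw [← hfk]; exact (f k).norm_coe_le_norm t)
  have hrep := Rep.mul a1 a2
  rw [← hkk] at hrep
  apply hrep.mono
  calc ‖a1‖ * ‖a2‖ ≤ Real.sqrt ‖k‖ * Real.sqrt ‖k‖ :=
        mul_le_mul hn1 hn2 (norm_nonneg _) (Real.sqrt_nonneg _)
    _ = ‖k‖ := Real.mul_self_sqrt (norm_nonneg _)

theorem map_squareSpan (p : A →ₙₐ[ℂ] D) {x : A} (hx : x ∈ squareSpan A) : p x ∈ squareSpan D := by
  induction hx using Submodule.span_induction with
  | mem y hy =>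
    obtain ⟨a, b, rfl⟩ := hy
    rw [map_mul]
    exact mem_squareSpan_mul _ _
  | zero => rw [map_zero]; exact zero_mem _
  | add y z _ _ hy hz => rw [map_add]; exact add_mem hy hz
  | smul r y _ hy => rw [map_smul]; exact Submodule.smul_mem _ _ hy

/-- Lifting by constant functions. -/
theorem IsCov.exists_lift (h : IsCov π f p) {M : ℝ} (hM : 1 ≤ M) (hπ : ∀ d, ‖π d‖ ≤ M * ‖d‖) (d : D) :
    ∃ a, f a = ContinuousMap.const I (π d) ∧ p a = d ∧ ‖a‖ ≤ M * ‖d‖ := by
  obtain ⟨a, ha, ha'⟩ := h.surj (ContinuousMap.const I (π d)) d rfl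
  refine ⟨a, ha, ha', ?_⟩
  rw [h.norm_eq, ha, ha']
  apply max_le
  · rw [ContinuousMap.norm_le _ (mul_nonneg (zero_le_one.trans hM) (norm_nonneg _))]
    intro t
    exact hπ d
  · calc ‖d‖ = 1 * ‖d‖ := (one_mul _).symm
      _ ≤ M * ‖d‖ := mul_le_mul_of_nonneg_right hM (norm_nonneg _)

theorem IsCov.propertyS (h : IsCov π f p) (hone : ‖(1 : B)‖ ≤ 1) {M : ℝ} (hM : 1 ≤ M)
    (hπ : ∀ d, ‖π d‖ ≤ M * ‖d‖) (hD : PropertyS D) : PropertyS A := by
  obtain ⟨C, hC⟩ := hD
  have hM0 : 0 ≤ M := zero_le_one.trans hM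
  refine ⟨M * M * |C| + (1 + M * M * |C|), ?_⟩
  intro x hx
  obtain ⟨n, d, e, h1, h2⟩ := hC (p x) (map_squareSpan p hx)
  have hpx : ‖p x‖ ≤ ‖x‖ := by rw [h.norm_eq x]; exact le_max_right _ _
  have h2' : ∑ i, ‖d i‖ * ‖e i‖ ≤ |C| * ‖x‖ :=
    h2.trans ((mul_le_mul_of_nonneg_right (le_abs_self C) (norm_nonneg _)).trans
      (mul_le_mul_of_nonneg_left hpx (abs_nonneg C)))
  choose l hl1 hl2 hl3 using h.exists_lift hM hπ
  have hsum : ∑ i, ‖l (d i)‖ * ‖l (e i)‖ ≤ M * M * |C| * ‖x‖ := by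
    calc ∑ i, ‖l (d i)‖ * ‖l (e i)‖ ≤ ∑ i, M * M * (‖d i‖ * ‖e i‖) := by
          apply Finset.sum_le_sum
          intro i _
          calc ‖l (d i)‖ * ‖l (e i)‖ ≤ (M * ‖d i‖) * (M * ‖e i‖) :=
                mul_le_mul (hl3 _) (hl3 _) (norm_nonneg _) (mul_nonneg hM0 (norm_nonneg _))
            _ = M * M * (‖d i‖ * ‖e i‖) := by ring
      _ = M * M * ∑ i, ‖d i‖ * ‖e i‖ := by rw [Finset.mul_sum]
      _ ≤ M * M * (|C| * ‖x‖) := mul_le_mul_of_nonneg_left h2' (mul_nonneg hM0 hM0)
      _ = M * M * |C| * ‖x‖ := by ring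
  have hy : Rep (∑ i, l (d i) * l (e i)) (M * M * |C| * ‖x‖) :=
    ⟨n, fun i => l (d i), fun i => l (e i), rfl, hsum⟩
  have hk : p (x - ∑ i, l (d i) * l (e i)) = 0 := by
    rw [map_sub, map_sum]
    simp only [map_mul, hl2]
    rw [← h1, sub_self]
  have hky := h.rep_of_ker hone hk
  have hkn : ‖x - ∑ i, l (d i) * l (e i)‖ ≤ (1 + M * M * |C|) * ‖x‖ := by
    calc ‖x - ∑ i, l (d i) * l (e i)‖ ≤ ‖x‖ + ‖∑ i, l (d i) * l (e i)‖ := norm_sub_le _ _
      _ ≤ ‖x‖ + ∑ i, ‖l (d i)‖ * ‖l (e i)‖ := by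
          gcongr
          exact (norm_sum_le _ _).trans (Finset.sum_le_sum (fun i _ => norm_mul_le _ _))
      _ ≤ ‖x‖ + M * M * |C| * ‖x‖ := by gcongr
      _ = (1 + M * M * |C|) * ‖x‖ := by ring
  have hfin := hy.add (hky.mono hkn)
  rw [add_sub_cancel] at hfin
  apply hfin.mono
  apply le_of_eq
  ring

theorem IsCov.propertyS_down (h : IsCov π f p) {M : ℝ} (hM : 1 ≤ M)
    (hπ : ∀ d, ‖π d‖ ≤ M * ‖d‖) (hA : PropertyS A) : PropertyS D := by
  obtain ⟨C, hC⟩ := hA
  have hM0 : 0 ≤ M := zero_le_one.trans hM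
  choose l hl1 hl2 hl3 using h.exists_lift hM hπ
  have hlin : ∀ d ∈ squareSpan D, l d ∈ squareSpan A := by
    intro d hd
    induction hd using Submodule.span_induction with
    | mem y hy =>
      obtain ⟨a, b, rfl⟩ := hy
      have : l (a * b) = l a * l b := by
        apply h.ext
        · rw [map_mul, hl1, hl1, hl1]
          ext t
          simp
        · rw [map_mul, hl2, hl2, hl2]
      rw [this]
      exact mem_squareSpan_mul _ _
    | zero =>
      have : l (0 : D) = 0 := by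
        apply h.ext
        · rw [hl1]; ext t; simp
        · rw [hl2]; simp
      rw [this]; exact zero_mem _
    | add y z _ _ hy hz =>
      have : l (y + z) = l y + l z := by
        apply h.ext
        · rw [map_add, hl1, hl1, hl1]
          ext t
          simp
        · rw [map_add, hl2, hl2, hl2]
      rw [this]; exact add_mem hy hz
    | smul r y _ hy =>
      have : l (r • y) = r • l y := by
        apply h.ext
        · rw [map_smul, hl1, hl1]
          ext t
          simp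
        · rw [map_smul, hl2, hl2]
      rw [this]; exact Submodule.smul_mem _ _ hy
  refine ⟨|C| * M, ?_⟩
  intro d hd
  obtain ⟨n, a, b, h1, h2⟩ := hC (l d) (hlin d hd)
  refine ⟨n, fun i => p (a i), fun i => p (b i), ?_, ?_⟩
  · have := congrArg p h1
    rw [hl2, map_sum] at this
    rw [this]
    exact Finset.sum_congr rfl (fun i _ => map_mul p _ _)
  · have hp : ∀ x : A, ‖p x‖ ≤ ‖x‖ := fun x => by rw [h.norm_eq x]; exact le_max_right _ _
    calc ∑ i, ‖p (a i)‖ * ‖p (b i)‖ ≤ ∑ i, ‖a i‖ * ‖b i‖ :=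
          Finset.sum_le_sum (fun i _ => mul_le_mul (hp _) (hp _) (norm_nonneg _) (norm_nonneg _))
      _ ≤ C * ‖l d‖ := h2
      _ ≤ |C| * (M * ‖d‖) := mul_le_mul (le_abs_self C) (hl3 d) (norm_nonneg _) (abs_nonneg C)
      _ = |C| * M * ‖d‖ := by ring

end cov
theorem exists_nil (E G : Type) [NormedAddCommGroup E] [NormedSpace ℂ E] [CompleteSpace E]
    [NormedAddCommGroup G] [NormedSpace ℂ G] [CompleteSpace G] (β : E →L[ℂ] E →L[ℂ] G)
    (hβ : ∀ a b, ‖β a b‖ ≤ ‖a‖ * ‖b‖) :
    ∃ (D : Type) (_ : NonUnitalNormedRing D) (_ : NormedSpace ℂ D) (_ : IsScalarTower ℂ D D)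
      (_ : SMulCommClass ℂ D D) (_ : CompleteSpace D) (e : D ≃ₗ[ℂ] E × G),
      (∀ d, ‖d‖ = ‖e d‖) ∧ ∀ d d', e (d * d') = (0, β (e d).1 (e d').1) := by
  let inst : NonUnitalNormedRing (E × G) :=
    { (inferInstance : NormedAddCommGroup (E × G)) with
      mul := fun x y => (0, β x.1 y.1)
      left_distrib := fun x y z => by
        change ((0 : E), β x.1 (y.1 + z.1)) = (0, β x.1 y.1) + (0, β x.1 z.1)
        simp
      right_distrib := fun x y z => by
        change ((0 : E), β (x.1 + y.1) z.1) = (0, β x.1 z.1) + (0, β y.1 z.1)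
        simp
      zero_mul := fun x => by
        change ((0 : E), β 0 x.1) = 0
        simp
      mul_zero := fun x => by
        change ((0 : E), β x.1 0) = 0
        simp
      mul_assoc := fun x y z => by
        change ((0 : E), β 0 z.1) = (0, β x.1 0)
        simp
      norm_mul_le := fun x y => by
        change ‖((0 : E), β x.1 y.1)‖ ≤ ‖x‖ * ‖y‖
        rw [Prod.norm_def]
        apply max_le
        · simp only [norm_zero]
          positivity
        · exact (hβ _ _).trans (mul_le_mul (norm_fst_le x) (norm_fst_le y) (norm_nonneg _) (norm_nonneg _)) }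
  let ns : @NormedSpace ℂ (E × G) _ inst.toNonUnitalSeminormedRing.toSeminormedAddCommGroup :=
    (inferInstance : NormedSpace ℂ (E × G))
  refine ⟨E × G, inst, ns, ⟨fun c x y => ?_⟩, ⟨fun c x y => ?_⟩, (inferInstance : CompleteSpace (E × G)),
    LinearEquiv.refl ℂ (E × G), fun d => rfl, fun d d' => rfl⟩
  · change ((0 : E), β (c • x.1) y.1) = c • ((0 : E), β x.1 y.1)
    ext <;> simp
  · change c • ((0 : E), β x.1 y.1) = ((0 : E), β x.1 (c • y.1))
    ext <;> simp

theorem prim {X : Type} [NormedAddCommGroup X] [NormedSpace ℂ X] (T : X →L[ℂ] X) (hT : T ≠ 0) :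
    ∃ S : X →L[ℂ] X, ¬ ∃ z : X →L[ℂ] X, z * (1 - S * T) = 1 := by
  obtain ⟨v, hv⟩ : ∃ v, T v ≠ 0 := by
    by_contra hno
    push Not at hno
    exact hT (ContinuousLinearMap.ext hno)
  obtain ⟨g, hg⟩ := SeparatingDual.exists_eq_one (R := ℂ) hv
  refine ⟨g.smulRight v, ?_⟩
  rintro ⟨z, hz⟩
  have h3 := congrArg (fun U : X →L[ℂ] X => U v) hz
  simp [hg] at h3
  apply hv
  rw [← h3, map_zero]

/-- `ℓ¹`. -/
noncomputable abbrev L1 := lp (fun _ : ℕ => ℂ) 1

theorem l1_norm (a : L1) : ‖a‖ = ∑' k, ‖a k‖ := by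
  rw [lp.norm_eq_tsum_rpow (by simp)]
  simp

theorem l1_summable (a : L1) : Summable fun k => ‖a k‖ := by
  have := lp.memℓp a
  rw [memℓp_gen_iff (by simp)] at this
  simpa using this

theorem l1_mem {g : ℕ → ℂ} (h : Summable fun k => ‖g k‖) : Memℓp g 1 := by
  rw [memℓp_gen_iff (by simp)]
  simpa using h

theorem prod_summable (a b : L1) : Summable fun k => ‖a k‖ * ‖b k‖ := by
  apply Summable.of_nonneg_of_le (fun k => by positivity) (fun k => ?_) ((l1_summable a).mul_right ‖b‖)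
  apply mul_le_mul_of_nonneg_left _ (norm_nonneg _)
  exact lp.norm_apply_le_norm (by simp) b k

/-- pointwise product as a bounded bilinear map -/
noncomputable def pmul : L1 →ₗ[ℂ] L1 →ₗ[ℂ] L1 :=
  LinearMap.mk₂ ℂ (fun a b => ⟨fun k => a k * b k, l1_mem (by simpa using prod_summable a b)⟩)
    (fun a b c => by ext k; simp [add_mul])
    (fun c a b => by ext k; simp [mul_assoc])
    (fun a b c => by ext k; simp [mul_add])
    (fun c a b => by ext k; simp [mul_left_comm])

theorem pmul_apply (a b : L1) (k : ℕ) : pmul a b k = a k * b k := rfl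

theorem norm_pmul_le (a b : L1) : ‖pmul a b‖ ≤ ‖a‖ * ‖b‖ := by
  rw [l1_norm, l1_norm a, ← tsum_mul_right]
  apply Summable.tsum_le_tsum _ _ ((l1_summable a).mul_right ‖b‖)
  · intro k
    rw [pmul_apply, norm_mul]
    apply mul_le_mul_of_nonneg_left _ (norm_nonneg _)
    exact lp.norm_apply_le_norm (by simp) b k
  · simpa [pmul_apply] using prod_summable a b



/-- coordinates -/
def co (j : ℕ) : L1 →ₗ[ℂ] ℂ where
  toFun := fun a => a j
  map_add' := fun a b => rfl
  map_smul' := fun c a => rfl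

theorem co_ext {a b : L1} (h : ∀ j, co j a = co j b) : a = b := by
  ext j
  exact h j

/-- unit vectors -/
noncomputable def sg (k : ℕ) (c : ℂ) : L1 := lp.single 1 k c

theorem co_sg (j k : ℕ) (c : ℂ) : co j (sg k c) = if j = k then c else 0 := by
  change (Pi.single k c : ℕ → ℂ) j = _
  rw [Pi.single_apply]

theorem norm_sg (k : ℕ) (c : ℂ) : ‖sg k c‖ = ‖c‖ :=
  lp.norm_single (E := fun _ : ℕ => ℂ) (p := 1) (by simp) k c

/-- truncation to a finite set of coordinates -/
noncomputable def trunc (F : Finset ℕ) (a : L1) : L1 := ∑ k ∈ F, sg k (co k a)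

theorem co_trunc (F : Finset ℕ) (a : L1) (j : ℕ) : co j (trunc F a) = if j ∈ F then co j a else 0 := by
  unfold trunc
  rw [map_sum]
  simp only [co_sg]
  rw [Finset.sum_ite_eq]

theorem tendsto_trunc (a : L1) : Filter.Tendsto (fun F => trunc F a) Filter.atTop (nhds a) :=
  lp.hasSum_single (by simp) a

noncomputable def PM : L1 →L[ℂ] L1 →L[ℂ] L1 :=
  LinearMap.mkContinuous₂ pmul 1 (fun a b => by rw [one_mul]; exact norm_pmul_le a b)

theorem co_PM (a b : L1) (k : ℕ) : co k (PM a b) = co k a * co k b := rfl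

theorem PM_norm (a b : L1) : ‖PM a b‖ ≤ ‖a‖ * ‖b‖ := norm_pmul_le a b

theorem norm_eq_tsum (a : L1) : ‖a‖ = ∑' k, ‖co k a‖ := l1_norm a

theorem summable_co (a : L1) : Summable fun k => ‖co k a‖ := l1_summable a

section nil
variable {D : Type} [NonUnitalNormedRing D] [NormedSpace ℂ D] [IsScalarTower ℂ D D] [SMulCommClass ℂ D D]

theorem nil_propertyS (e : D ≃ₗ[ℂ] L1 × L1) (hn : ∀ d, ‖d‖ = ‖e d‖)
    (hmul : ∀ d d', e (d * d') = (0, PM (e d).1 (e d').1)) : PropertyS D := by
  refine ⟨2, ?_⟩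
  intro x hx
  change Rep x (2 * ‖x‖)
  obtain ⟨n, a, b, hab⟩ := exists_rep hx
  by_cases hx0 : x = 0
  · subst hx0
    simpa using Rep.zero
  have hxpos : 0 < ‖x‖ := norm_pos_iff.mpr hx0
  obtain ⟨s, hs⟩ : ∃ s : L1, s = ∑ i, PM (e (a i)).1 (e (b i)).1 := ⟨_, rfl⟩
  have hex : e x = (0, s) := by
    rw [hab, map_sum]
    simp only [hmul]
    rw [hs]
    ext1
    · rw [Prod.fst_sum]; simp
    · rw [Prod.snd_sum]
  have hxs : ‖x‖ = ‖s‖ := by
    rw [hn, hex, Prod.norm_def]
    simp
  -- choice of the finite set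
  have hlim : Filter.Tendsto (fun F => ∑ i, ‖(e (a i)).1 - trunc F (e (a i)).1‖ *
      ‖(e (b i)).1 - trunc F (e (b i)).1‖) Filter.atTop (nhds 0) := by
    have h1 : ∀ i ∈ (Finset.univ : Finset (Fin n)), Filter.Tendsto (fun F => ‖(e (a i)).1 - trunc F (e (a i)).1‖ *
      ‖(e (b i)).1 - trunc F (e (b i)).1‖) Filter.atTop (nhds 0) := by
      intro i _
      have h2 := ((tendsto_const_nhds (x := (e (a i)).1)).sub (tendsto_trunc (e (a i)).1)).norm
      have h3 := ((tendsto_const_nhds (x := (e (b i)).1)).sub (tendsto_trunc (e (b i)).1)).norm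
      have h4 := h2.mul h3
      simpa using h4
    have := tendsto_finsetSum _ h1
    simpa using this
  obtain ⟨F, hF⟩ := (hlim.eventually (gt_mem_nhds hxpos)).exists
  -- first part
  have hr1 : Rep (∑ k ∈ F, e.symm (sg k (co k s), 0) * e.symm (sg k 1, 0))
      (∑ k ∈ F, ‖co k s‖ * 1) := by
    apply Rep.sum
    intro k _
    apply (Rep.mul _ _).mono
    rw [hn, hn, e.apply_symm_apply, e.apply_symm_apply, Prod.norm_def, Prod.norm_def]
    simp only [norm_sg, norm_zero]
    simp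
  have hr2 : Rep (∑ i, e.symm ((e (a i)).1 - trunc F (e (a i)).1, 0) *
      e.symm ((e (b i)).1 - trunc F (e (b i)).1, 0))
      (∑ i, ‖(e (a i)).1 - trunc F (e (a i)).1‖ * ‖(e (b i)).1 - trunc F (e (b i)).1‖) := by
    refine ⟨n, _, _, rfl, ?_⟩
    apply Finset.sum_le_sum
    intro i _
    rw [hn, hn, e.apply_symm_apply, e.apply_symm_apply, Prod.norm_def, Prod.norm_def]
    simp
  have hfin := hr1.add hr2
  have hxeq : x = ∑ k ∈ F, e.symm (sg k (co k s), 0) * e.symm (sg k 1, 0) +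
      ∑ i, e.symm ((e (a i)).1 - trunc F (e (a i)).1, 0) *
      e.symm ((e (b i)).1 - trunc F (e (b i)).1, 0) := by
    apply e.injective
    rw [hex, map_add, map_sum, map_sum]
    simp only [hmul, e.apply_symm_apply]
    ext1
    · rw [Prod.fst_add, Prod.fst_sum, Prod.fst_sum]; simp
    · rw [Prod.snd_add, Prod.snd_sum, Prod.snd_sum]
      apply co_ext
      intro j
      rw [map_add, map_sum, map_sum]
      simp only [co_PM]
      simp only [map_sub, co_trunc, co_sg]
      have hsj : co j s = ∑ i, co j (e (a i)).1 * co j (e (b i)).1 := by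
        rw [hs, map_sum]
        rfl
      by_cases hj : j ∈ F
      · rw [Finset.sum_eq_single j]
        · simp [hj]
        · intro k _ hk
          simp [Ne.symm hk]
        · intro h; exact absurd hj h
      · have h1 : ∑ k ∈ F, (if j = k then co k s else 0) * (if j = k then (1 : ℂ) else 0) = 0 := by
          apply Finset.sum_eq_zero
          intro k hk
          have hkj : j ≠ k := fun h => hj (h ▸ hk)
          simp [hkj]
        rw [h1, zero_add, hsj]
        simp [hj]
  rw [← hxeq] at hfin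
  apply hfin.mono
  have h5 : ∑ k ∈ F, ‖co k s‖ * 1 ≤ ‖x‖ := by
    rw [hxs, norm_eq_tsum]
    simp only [mul_one]
    exact (summable_co s).sum_le_tsum F (fun k _ => norm_nonneg _)
  linarith

end nil


/-- The vector `u = (1/(k+1)^2)`. -/
noncomputable def uvec : L1 :=
  ⟨fun k => ((1 / ((k : ℝ) + 1) ^ 2 : ℝ) : ℂ), l1_mem (by
    have h : Summable fun k : ℕ => 1 / ((k : ℝ) + 1) ^ 2 := by
      have h1 := (summable_nat_add_iff 1).mpr (Real.summable_one_div_nat_pow.mpr (one_lt_two))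
      simpa using h1
    refine h.congr ?_
    intro k
    rw [Complex.norm_real, Real.norm_of_nonneg (by positivity)])⟩

theorem co_uvec (k : ℕ) : co k uvec = ((1 / ((k : ℝ) + 1) ^ 2 : ℝ) : ℂ) := rfl

theorem sqrt_norm_co_uvec (k : ℕ) : Real.sqrt ‖co k uvec‖ = 1 / ((k : ℝ) + 1) := by
  rw [co_uvec, Complex.norm_real, Real.norm_of_nonneg (by positivity), Real.sqrt_div zero_le_one,
    Real.sqrt_one, Real.sqrt_sq (by positivity)]

/-- Finite sums of pointwise products of summable sequences have summable square roots. -/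
theorem summable_sqrt {n : ℕ} (a b : Fin n → L1) (s : L1) (hs : s = ∑ i, PM (a i) (b i)) :
    Summable fun k => Real.sqrt ‖co k s‖ := by
  have h1 : ∀ k, Real.sqrt ‖co k s‖ ≤ ∑ i, (‖co k (a i)‖ + ‖co k (b i)‖) := by
    intro k
    have h2 : co k s = ∑ i, co k (a i) * co k (b i) := by
      rw [hs, map_sum]
      rfl
    have h3 : ‖co k s‖ ≤ (∑ i, (‖co k (a i)‖ + ‖co k (b i)‖)) ^ 2 := by
      calc ‖co k s‖ ≤ ∑ i, ‖co k (a i) * co k (b i)‖ := by rw [h2]; exact norm_sum_le _ _
        _ ≤ ∑ i, (‖co k (a i)‖ + ‖co k (b i)‖) * (‖co k (a i)‖ + ‖co k (b i)‖) := by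
            apply Finset.sum_le_sum
            intro i _
            rw [norm_mul]
            have := norm_nonneg (co k (a i))
            have := norm_nonneg (co k (b i))
            nlinarith
        _ ≤ ∑ i, (‖co k (a i)‖ + ‖co k (b i)‖) * ∑ j, (‖co k (a j)‖ + ‖co k (b j)‖) := by
            apply Finset.sum_le_sum
            intro i hi
            apply mul_le_mul_of_nonneg_left _ (by positivity)
            exact Finset.single_le_sum (f := fun j => ‖co k (a j)‖ + ‖co k (b j)‖)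
              (fun j _ => by positivity) hi
        _ = (∑ i, (‖co k (a i)‖ + ‖co k (b i)‖)) ^ 2 := by rw [← Finset.sum_mul, sq]
    calc Real.sqrt ‖co k s‖ ≤ Real.sqrt ((∑ i, (‖co k (a i)‖ + ‖co k (b i)‖)) ^ 2) := Real.sqrt_le_sqrt h3
      _ = ∑ i, (‖co k (a i)‖ + ‖co k (b i)‖) := Real.sqrt_sq (Finset.sum_nonneg (fun i _ => by positivity))
  apply Summable.of_nonneg_of_le (fun k => Real.sqrt_nonneg _) h1
  apply summable_sum
  intro i _
  exact (summable_co (a i)).add (summable_co (b i))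

theorem uvec_ne {n : ℕ} (a b : Fin n → L1) : uvec ≠ ∑ i, PM (a i) (b i) := by
  intro h
  have h1 := summable_sqrt a b uvec h
  simp only [sqrt_norm_co_uvec] at h1
  have h2 : Summable fun k : ℕ => 1 / ((k : ℝ)) := by
    rw [← summable_nat_add_iff 1]
    simpa using h1
  exact Real.not_summable_one_div_natCast h2

noncomputable abbrev Ru : Submodule ℂ L1 := Submodule.span ℂ {uvec}

instance : IsClosed (Ru : Set L1) := Submodule.closed_of_finiteDimensional _

noncomputable abbrev Gq := L1 ⧸ Ru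

noncomputable def qL : L1 →L[ℂ] Gq := Ru.mkQL

theorem qL_le (s : L1) : ‖qL s‖ ≤ ‖s‖ := Submodule.Quotient.norm_mk_le Ru s

theorem qL_eq_zero {s : L1} : qL s = 0 ↔ s ∈ Ru := Submodule.Quotient.mk_eq_zero Ru

theorem qL_norm_lt (s : L1) {ε : ℝ} (hε : 0 < ε) : ∃ c : ℂ, ‖s - c • uvec‖ < ‖qL s‖ + ε := by
  obtain ⟨m, hm1, hm2⟩ := Submodule.Quotient.norm_mk_lt (qL s) hε
  have h1 : s - m ∈ Ru := by
    rw [← qL_eq_zero, map_sub]
    change qL s - Submodule.Quotient.mk m = 0
    rw [hm1, sub_self]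
  obtain ⟨c, hc⟩ := Submodule.mem_span_singleton.mp h1
  refine ⟨c, ?_⟩
  rw [hc, sub_sub_cancel]
  exact hm2

noncomputable def QM : L1 →L[ℂ] L1 →L[ℂ] Gq := (ContinuousLinearMap.compL ℂ L1 L1 Gq qL).comp PM

theorem QM_apply (a b : L1) : QM a b = qL (PM a b) := rfl

theorem QM_norm (a b : L1) : ‖QM a b‖ ≤ ‖a‖ * ‖b‖ := (qL_le _).trans (PM_norm a b)

theorem nil_not_propertyS {D : Type} [NonUnitalNormedRing D] [NormedSpace ℂ D]
    (e : D ≃ₗ[ℂ] L1 × Gq) (hn : ∀ d, ‖d‖ = ‖e d‖)
    (hmul : ∀ d d', e (d * d') = (0, QM (e d).1 (e d').1)) : ¬ PropertyS D := by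
  rintro ⟨C, hC⟩
  -- the finite sections
  have hPsum : ∀ n, trunc (Finset.range n) uvec = ∑ k ∈ Finset.range n, PM (sg k (co k uvec)) (sg k 1) := by
    intro n
    apply Finset.sum_congr rfl
    intro k _
    apply co_ext
    intro j
    rw [co_PM, co_sg, co_sg]
    split_ifs <;> simp
  have hmem : ∀ n, e.symm (0, qL (trunc (Finset.range n) uvec)) ∈ squareSpan D := by
    intro n
    have h1 : e.symm (0, qL (trunc (Finset.range n) uvec)) =
        ∑ k ∈ Finset.range n, e.symm (sg k (co k uvec), 0) * e.symm (sg k 1, 0) := by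
      apply e.injective
      rw [map_sum]
      simp only [hmul, e.apply_symm_apply, QM_apply]
      ext1
      · rw [Prod.fst_sum]; simp
      · rw [Prod.snd_sum, hPsum, map_sum]
    rw [h1]
    exact Submodule.sum_mem _ (fun k _ => mem_squareSpan_mul _ _)
  have hnorm : ∀ n, ‖e.symm ((0 : L1), qL (trunc (Finset.range n) uvec))‖ ≤ ‖uvec - trunc (Finset.range n) uvec‖ := by
    intro n
    rw [hn, e.apply_symm_apply, Prod.norm_def]
    have h1 : qL (trunc (Finset.range n) uvec) = qL (trunc (Finset.range n) uvec - uvec) := by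
      rw [map_sub, qL_eq_zero.mpr (Submodule.mem_span_singleton_self uvec), sub_zero]
    simp only [norm_zero]
    rw [h1, max_eq_right (norm_nonneg _), norm_sub_rev]
    exact qL_le _
  have hlow : ∀ n, 1 ≤ n → 1 ≤ |C| * ‖uvec - trunc (Finset.range n) uvec‖ := by
    intro n hn1
    obtain ⟨m, a, b, h1, h2⟩ := hC _ (hmem n)
    have h3 : qL (trunc (Finset.range n) uvec) = qL (∑ i, PM (e (a i)).1 (e (b i)).1) := by
      have h4 := congrArg (fun d => (e d).2) h1
      simp only [e.apply_symm_apply, map_sum, hmul, Prod.snd_sum] at h4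
      rw [h4, map_sum]
      rfl
    have h5 : trunc (Finset.range n) uvec - ∑ i, PM (e (a i)).1 (e (b i)).1 ∈ Ru := by
      rw [← qL_eq_zero, map_sub, h3, sub_self]
    obtain ⟨c, hc⟩ := Submodule.mem_span_singleton.mp h5
    have hc0 : c = 0 := by
      by_contra hne
      -- then uvec would be a finite sum of products
      have h6 : uvec = ∑ i : Fin (n + m), PM
          (Fin.append (fun k : Fin n => c⁻¹ • sg k (co k uvec)) (fun i => -(c⁻¹ • (e (a i)).1)) i)
          (Fin.append (fun k : Fin n => sg k 1) (fun i => (e (b i)).1) i) := by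
        rw [Fin.sum_univ_add]
        simp only [Fin.append_left, Fin.append_right]
        have h7 : uvec = c⁻¹ • (trunc (Finset.range n) uvec - ∑ i, PM (e (a i)).1 (e (b i)).1) := by
          rw [← hc, smul_smul, inv_mul_cancel₀ hne, one_smul]
        calc uvec = c⁻¹ • (trunc (Finset.range n) uvec - ∑ i, PM (e (a i)).1 (e (b i)).1) := h7
          _ = _ := by
            rw [hPsum, Finset.sum_range, smul_sub, Finset.smul_sum, Finset.smul_sum, sub_eq_add_neg,
              ← Finset.sum_neg_distrib]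
            congr 1
            · apply Finset.sum_congr rfl
              intro k _
              rw [map_smul]
              rfl
            · apply Finset.sum_congr rfl
              intro k _
              rw [map_neg, map_smul]
              rfl
      exact uvec_ne _ _ h6
    rw [hc0, zero_smul] at hc
    have h8 : trunc (Finset.range n) uvec = ∑ i, PM (e (a i)).1 (e (b i)).1 := (sub_eq_zero.mp hc.symm)
    have h9 : ‖trunc (Finset.range n) uvec‖ ≤ |C| * ‖uvec - trunc (Finset.range n) uvec‖ := by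
      calc ‖trunc (Finset.range n) uvec‖ ≤ ∑ i, ‖PM (e (a i)).1 (e (b i)).1‖ := by
            rw [h8]; exact norm_sum_le _ _
        _ ≤ ∑ i, ‖a i‖ * ‖b i‖ := by
            apply Finset.sum_le_sum
            intro i _
            refine (PM_norm _ _).trans ?_
            rw [hn (a i), hn (b i)]
            exact mul_le_mul (norm_fst_le _) (norm_fst_le _) (norm_nonneg _) (norm_nonneg _)
        _ ≤ C * ‖e.symm ((0 : L1), qL (trunc (Finset.range n) uvec))‖ := h2
        _ ≤ |C| * ‖uvec - trunc (Finset.range n) uvec‖ :=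
            mul_le_mul (le_abs_self C) (hnorm n) (norm_nonneg _) (abs_nonneg C)
    have h10 : (1 : ℝ) ≤ ‖trunc (Finset.range n) uvec‖ := by
      have h11 : ‖co 0 (trunc (Finset.range n) uvec)‖ ≤ ‖trunc (Finset.range n) uvec‖ :=
        lp.norm_apply_le_norm (by simp) (trunc (Finset.range n) uvec) 0
      rw [co_trunc, if_pos (Finset.mem_range.mpr hn1), co_uvec] at h11
      simpa using h11
    exact h10.trans h9
  have hlim : Filter.Tendsto (fun n => |C| * ‖uvec - trunc (Finset.range n) uvec‖) Filter.atTop (nhds 0) := by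
    have h1 := (tendsto_trunc uvec).comp Filter.tendsto_finset_range
    have h2 := ((tendsto_const_nhds (x := uvec)).sub h1).norm
    have h3 := h2.const_mul |C|
    simpa using h3
  have h4 := ge_of_tendsto hlim (Filter.eventually_atTop.mpr ⟨1, hlow⟩)
  linarith


theorem exists_equalizer {E P : Type} [NonUnitalNormedRing E] [NormedSpace ℂ E] [IsScalarTower ℂ E E]
    [SMulCommClass ℂ E E] [CompleteSpace E] [NormedRing P] [NormedAlgebra ℂ P]
    (φ ψ : E →ₙₐ[ℂ] P) (hφ : Continuous φ) (hψ : Continuous ψ) :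
    ∃ (A : Type) (_ : NonUnitalNormedRing A) (_ : NormedSpace ℂ A) (_ : IsScalarTower ℂ A A)
      (_ : SMulCommClass ℂ A A) (_ : CompleteSpace A) (j : A →ₙₐ[ℂ] E),
      (∀ a, ‖a‖ = ‖j a‖) ∧ (∀ a, φ (j a) = ψ (j a)) ∧ (∀ e, φ e = ψ e → ∃ a, j a = e) := by
  let S : NonUnitalSubalgebra ℂ E := NonUnitalAlgHom.equalizer φ ψ
  have hcl : IsClosed (S : Set E) := by
    have : (S : Set E) = {x | φ x = ψ x} := by
      ext x; exact NonUnitalAlgHom.mem_equalizer φ ψ x
    rw [this]
    exact isClosed_eq hφ hψ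
  let _ : NonUnitalNormedRing S := NonUnitalSubalgebra.nonUnitalNormedRing S
  let _ : NormedSpace ℂ S :=
    { norm_smul_le := fun c x => by
        change ‖(c • x : E)‖ ≤ ‖c‖ * ‖(x : E)‖
        exact norm_smul_le c (x : E) }
  have : CompleteSpace S := hcl.completeSpace_coe
  refine ⟨S, inferInstance, inferInstance, inferInstance, inferInstance, inferInstance,
    NonUnitalSubalgebraClass.subtype S, fun a => rfl, fun a => ?_, fun e he => ?_⟩
  · exact a.2
  · exact ⟨⟨e, he⟩, rfl⟩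

theorem exists_cov {D B : Type} [NonUnitalNormedRing D] [NormedSpace ℂ D] [IsScalarTower ℂ D D]
    [SMulCommClass ℂ D D] [CompleteSpace D] [NormedRing B] [NormedAlgebra ℂ B] [CompleteSpace B]
    (π : D →ₙₐ[ℂ] B) (hπ : Continuous π) :
    ∃ (A : Type) (_ : NonUnitalNormedRing A) (_ : NormedSpace ℂ A) (_ : IsScalarTower ℂ A A)
      (_ : SMulCommClass ℂ A A) (_ : CompleteSpace A) (f : A →ₙₐ[ℂ] C(I, B)) (p : A →ₙₐ[ℂ] D),
      IsCov π f p := by
  let φ : (C(I, B) × D) →ₙₐ[ℂ] B :=
    { toFun := fun x => x.1 0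
      map_smul' := by intro c b; simp
      map_zero' := by simp
      map_add' := by intro b c; simp
      map_mul' := by intro b c; simp }
  let ψ : (C(I, B) × D) →ₙₐ[ℂ] B :=
    { toFun := fun x => π x.2
      map_smul' := by intro c b; simp
      map_zero' := by simp
      map_add' := by intro b c; simp
      map_mul' := by intro b c; simp }
  have hφ : Continuous φ := by
    change Continuous (fun x : C(I, B) × D => x.1 0)
    fun_prop
  have hψ : Continuous ψ := by
    change Continuous (fun x : C(I, B) × D => π x.2)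
    exact hπ.comp continuous_snd
  obtain ⟨A, i1, i2, i3, i4, i5, j, hj1, hj2, hj3⟩ := exists_equalizer φ ψ hφ hψ
  refine ⟨A, i1, i2, i3, i4, i5,
    { toFun := fun a => (j a).1
      map_smul' := by intro c b; simp
      map_zero' := by simp
      map_add' := by intro b c; simp
      map_mul' := by intro b c; simp },
    { toFun := fun a => (j a).2
      map_smul' := by intro c b; simp
      map_zero' := by simp
      map_add' := by intro b c; simp
      map_mul' := by intro b c; simp }, ⟨fun a => ?_, fun a => ?_, fun g d hgd => ?_⟩⟩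
  · rw [hj1 a]
    rfl
  · exact hj2 a
  · obtain ⟨a, ha⟩ := hj3 (g, d) hgd
    refine ⟨a, ?_, ?_⟩
    · change (j a).1 = g
      rw [ha]
    · change (j a).2 = d
      rw [ha]

/-- The representation of the nilpotent algebra on `ℂ × E × G`. -/
theorem exists_repr {E G : Type} [NormedAddCommGroup E] [NormedSpace ℂ E]
    [NormedAddCommGroup G] [NormedSpace ℂ G] (β : E →L[ℂ] E →L[ℂ] G) (hβ : ∀ a b, ‖β a b‖ ≤ ‖a‖ * ‖b‖)
    {D : Type} [NonUnitalNormedRing D] [NormedSpace ℂ D]
    (e : D ≃ₗ[ℂ] E × G) (hn : ∀ d, ‖d‖ = ‖e d‖)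
    (hmul : ∀ d d', e (d * d') = (0, β (e d).1 (e d').1)) :
    ∃ π : D →ₙₐ[ℂ] ((ℂ × E × G) →L[ℂ] (ℂ × E × G)), (∀ d, ‖π d‖ ≤ 2 * ‖d‖) ∧ ∀ d, π d = 0 → d = 0 := by
  let T : E → G → ((ℂ × E × G) →L[ℂ] (ℂ × E × G)) := fun a g =>
    ContinuousLinearMap.prod 0 (ContinuousLinearMap.prod
      ((ContinuousLinearMap.fst ℂ ℂ (E × G)).smulRight a)
      ((ContinuousLinearMap.fst ℂ ℂ (E × G)).smulRight g +
        (β a).comp ((ContinuousLinearMap.fst ℂ E G).comp (ContinuousLinearMap.snd ℂ ℂ (E × G)))))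
  have hT : ∀ a g x, T a g x = (0, x.1 • a, x.1 • g + β a x.2.1) := fun a g x => rfl
  let π : D →ₙₐ[ℂ] ((ℂ × E × G) →L[ℂ] (ℂ × E × G)) :=
    { toFun := fun d => T (e d).1 (e d).2
      map_smul' := by
        intro c d
        apply ContinuousLinearMap.ext
        intro x
        change T (e (c • d)).1 (e (c • d)).2 x = c • T (e d).1 (e d).2 x
        rw [map_smul, hT, hT]
        simp [smul_comm c]
      map_zero' := by
        apply ContinuousLinearMap.ext
        intro x
        change T (e 0).1 (e 0).2 x = 0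
        rw [map_zero, hT]
        simp
      map_add' := by
        intro c d
        apply ContinuousLinearMap.ext
        intro x
        change T (e (c + d)).1 (e (c + d)).2 x = T (e c).1 (e c).2 x + T (e d).1 (e d).2 x
        rw [map_add, hT, hT, hT]
        simp [add_add_add_comm]
      map_mul' := by
        intro c d
        apply ContinuousLinearMap.ext
        intro x
        change T (e (c * d)).1 (e (c * d)).2 x = T (e c).1 (e c).2 (T (e d).1 (e d).2 x)
        rw [hmul, hT, hT, hT]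
        simp }
  have hπ : ∀ d x, π d x = (0, x.1 • (e d).1, x.1 • (e d).2 + β (e d).1 x.2.1) := fun d x => rfl
  refine ⟨π, fun d => ?_, fun d hd => ?_⟩
  · apply ContinuousLinearMap.opNorm_le_bound _ (by positivity)
    intro x
    rw [hπ]
    have hx1 : ‖x.1‖ ≤ ‖x‖ := norm_fst_le x
    have hx2 : ‖x.2.1‖ ≤ ‖x‖ := (norm_fst_le x.2).trans (norm_snd_le x)
    have hd1 : ‖(e d).1‖ ≤ ‖d‖ := by rw [hn]; exact norm_fst_le _
    have hd2 : ‖(e d).2‖ ≤ ‖d‖ := by rw [hn]; exact norm_snd_le _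
    rw [Prod.norm_def, Prod.norm_def]
    simp only [norm_zero]
    have h0 : 0 ≤ ‖d‖ * ‖x‖ := by positivity
    apply max_le
    · positivity
    · apply max_le
      · rw [norm_smul]
        calc ‖x.1‖ * ‖(e d).1‖ ≤ ‖x‖ * ‖d‖ := mul_le_mul hx1 hd1 (norm_nonneg _) (norm_nonneg _)
          _ ≤ 2 * ‖d‖ * ‖x‖ := by nlinarith
      · calc ‖x.1 • (e d).2 + β (e d).1 x.2.1‖ ≤ ‖x.1 • (e d).2‖ + ‖β (e d).1 x.2.1‖ := norm_add_le _ _
          _ ≤ ‖x‖ * ‖d‖ + ‖d‖ * ‖x‖ := by
              rw [norm_smul]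
              exact add_le_add (mul_le_mul hx1 hd2 (norm_nonneg _) (norm_nonneg _))
                ((hβ _ _).trans (mul_le_mul hd1 hx2 (norm_nonneg _) (norm_nonneg _)))
          _ = 2 * ‖d‖ * ‖x‖ := by ring
  · apply e.injective
    rw [map_zero]
    have h1 : π d (1, 0, 0) = 0 := by rw [hd]; rfl
    rw [hπ] at h1
    simp only [one_smul, map_zero, add_zero] at h1
    have h2 : (e d).1 = 0 := congrArg (fun z => z.2.1) h1
    have h3 : (e d).2 = 0 := congrArg (fun z => z.2.2) h1
    ext1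
    · exact h2
    · exact h3

theorem main {D0 D1 B0 : Type}
    [NonUnitalNormedRing D0] [NormedSpace ℂ D0] [IsScalarTower ℂ D0 D0] [SMulCommClass ℂ D0 D0] [CompleteSpace D0]
    [NonUnitalNormedRing D1] [NormedSpace ℂ D1] [IsScalarTower ℂ D1 D1] [SMulCommClass ℂ D1 D1] [CompleteSpace D1]
    [NormedRing B0] [NormedAlgebra ℂ B0] [CompleteSpace B0]
    (e0 : D0 ≃ₗ[ℂ] L1 × L1) (hn0 : ∀ d, ‖d‖ = ‖e0 d‖)
    (hm0 : ∀ d d', e0 (d * d') = (0, PM (e0 d).1 (e0 d').1))
    (e1 : D1 ≃ₗ[ℂ] L1 × Gq) (hn1 : ∀ d, ‖d‖ = ‖e1 d‖)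
    (hm1 : ∀ d d', e1 (d * d') = (0, QM (e1 d).1 (e1 d').1))
    (hone : ‖(1 : B0)‖ ≤ 1) (hprim : ∀ T : B0, T ≠ 0 → ∃ S : B0, ¬ ∃ z : B0, z * (1 - S * T) = 1)
    (π1 : D1 →ₙₐ[ℂ] B0) (hπ1 : ∀ d, ‖π1 d‖ ≤ 2 * ‖d‖) (hinj : ∀ d, π1 d = 0 → d = 0) :
    ∃ (A : Type) (_ : NonUnitalNormedRing A) (_ : NormedSpace ℂ A) (_ : IsScalarTower ℂ A A)
      (_ : SMulCommClass ℂ A A) (_ : CompleteSpace A)
      (B : Type) (_ : NonUnitalNormedRing B) (_ : NormedSpace ℂ B) (_ : IsScalarTower ℂ B B)
      (_ : SMulCommClass ℂ B B) (_ : CompleteSpace B) (q : A →ₙₐ[ℂ] B),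
      FiniteDimensional ℂ (radical A) ∧
      Function.Surjective q ∧ (∀ a : A, q a = 0 ↔ a ∈ radical A) ∧
      (∀ a : A, ‖q a‖ = Metric.infDist a (radical A : Set A)) ∧
      PropertyS A ∧ ¬ PropertyS B := by
  -- the quotient map between the nilpotent algebras
  let qD : D0 →ₙₐ[ℂ] D1 :=
    { toFun := fun d => e1.symm ((e0 d).1, qL (e0 d).2)
      map_smul' := by
        intro c d
        apply e1.injective
        rw [map_smul, e1.apply_symm_apply, e1.map_smul, e1.apply_symm_apply]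
        simp
      map_zero' := by
        apply e1.injective
        rw [map_zero, e1.apply_symm_apply]
        simp
      map_add' := by
        intro c d
        apply e1.injective
        rw [map_add, e1.apply_symm_apply, e1.map_add, e1.apply_symm_apply, e1.apply_symm_apply]
        simp
      map_mul' := by
        intro c d
        apply e1.injective
        rw [hm0, hm1, e1.apply_symm_apply, e1.apply_symm_apply, e1.apply_symm_apply]
        rfl }
  have hqD : ∀ d, e1 (qD d) = ((e0 d).1, qL (e0 d).2) := fun d => e1.apply_symm_apply _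
  have hqDn : ∀ d, ‖qD d‖ ≤ ‖d‖ := by
    intro d
    rw [hn1, hqD, hn0, Prod.norm_def, Prod.norm_def]
    exact max_le_max le_rfl (qL_le _)
  let π0 : D0 →ₙₐ[ℂ] B0 := π1.comp qD
  have hπ0' : ∀ d, π0 d = π1 (qD d) := fun d => rfl
  have hπ0 : ∀ d, ‖π0 d‖ ≤ 2 * ‖d‖ := by
    intro d
    exact (hπ1 _).trans (mul_le_mul_of_nonneg_left (hqDn d) zero_le_two)
  have hc0 : Continuous π0 := AddMonoidHomClass.continuous_of_bound π0 2 hπ0
  have hc1 : Continuous π1 := AddMonoidHomClass.continuous_of_bound π1 2 hπ1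
  obtain ⟨A, _, _, _, _, _, fA, pA, hA⟩ := exists_cov π0 hc0
  obtain ⟨B, _, _, _, _, _, fB, pB, hB⟩ := exists_cov π1 hc1
  -- the quotient map
  have hex : ∀ a : A, ∃ b : B, fB b = fA a ∧ pB b = qD (pA a) := by
    intro a
    apply hB.surj
    rw [hA.zero_eq]
    rfl
  choose Q hQ1 hQ2 using hex
  let q : A →ₙₐ[ℂ] B :=
    { toFun := Q
      map_smul' := by
        intro c a
        apply hB.ext
        · rw [hQ1, map_smul]
          change _ = fB (c • Q a)
          rw [map_smul, hQ1]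
        · rw [hQ2, map_smul, map_smul]
          change _ = pB (c • Q a)
          rw [map_smul, hQ2]
      map_zero' := by
        apply hB.ext
        · rw [hQ1, map_zero, map_zero]
        · rw [hQ2, map_zero, map_zero, map_zero]
      map_add' := by
        intro a b
        apply hB.ext
        · rw [hQ1, map_add, map_add, hQ1, hQ1]
        · rw [hQ2, map_add, map_add, map_add, hQ2, hQ2]
      map_mul' := by
        intro a b
        apply hB.ext
        · rw [hQ1, map_mul, map_mul, hQ1, hQ1]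
        · rw [hQ2, map_mul, map_mul, map_mul, hQ2, hQ2] }
  have hq1 : ∀ a, fB (q a) = fA a := hQ1
  have hq2 : ∀ a, pB (q a) = qD (pA a) := hQ2
  -- the radical of A
  have hann : ∀ c : ℂ, ∀ d : D0, d * e0.symm (0, c • uvec) = 0 := by
    intro c d
    apply e0.injective
    rw [hm0, e0.apply_symm_apply, map_zero, map_zero]
    rfl
  have hqDu : ∀ c : ℂ, qD (e0.symm (0, c • uvec)) = 0 := by
    intro c
    apply e1.injective
    rw [hqD, e0.apply_symm_apply, map_zero]
    have : qL (c • uvec) = 0 := by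
      rw [qL_eq_zero]
      exact Submodule.smul_mem _ _ (Submodule.mem_span_singleton_self uvec)
    simp [this]
  have hrad : ∀ a : A, a ∈ radical A ↔ ∃ c : ℂ, fA a = 0 ∧ pA a = e0.symm (0, c • uvec) := by
    intro a
    constructor
    · intro ha
      have h1 := hA.f_eq_zero hprim ha
      have h2 : π1 (qD (pA a)) = 0 := by
        rw [← hπ0', ← hA.zero_eq, h1]
        rfl
      have h3 := hinj _ h2
      have h4 := hqD (pA a)
      rw [h3, map_zero] at h4
      have h5 : (e0 (pA a)).1 = 0 := (congrArg Prod.fst h4).symm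
      have h6 : qL (e0 (pA a)).2 = 0 := (congrArg Prod.snd h4).symm
      obtain ⟨c, hc⟩ := Submodule.mem_span_singleton.mp (qL_eq_zero.mp h6)
      refine ⟨c, h1, ?_⟩
      apply e0.injective
      rw [e0.apply_symm_apply]
      exact Prod.ext h5 hc.symm
    · rintro ⟨c, h1, h2⟩
      apply hA.mem_radical h1
      intro d
      rw [h2]
      exact hann c d
  have hexr : ∀ c : ℂ, ∃ a : A, fA a = 0 ∧ pA a = e0.symm (0, c • uvec) := by
    intro c
    apply hA.surj
    rw [hπ0', hqDu]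
    simp
  refine ⟨A, inferInstance, inferInstance, inferInstance, inferInstance, inferInstance,
    B, inferInstance, inferInstance, inferInstance, inferInstance, inferInstance, q, ?_, ?_, ?_, ?_, ?_, ?_⟩
  · -- finite dimensionality
    obtain ⟨r, hr1, hr2⟩ := hexr 1
    have hle : radical A ≤ Submodule.span ℂ {r} := by
      intro a ha
      obtain ⟨c, h1, h2⟩ := (hrad a).mp ha
      rw [Submodule.mem_span_singleton]
      refine ⟨c, ?_⟩
      apply hA.ext
      · rw [map_smul, hr1, h1]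
        ext t
        simp
      · rw [map_smul, hr2, h2, ← map_smul]
        congr 1
        simp
    exact Submodule.finiteDimensional_of_le hle
  · -- surjectivity
    intro b
    obtain ⟨s, hs⟩ : ∃ s : L1, qL s = (e1 (pB b)).2 := Submodule.Quotient.mk_surjective Ru _
    have h1 : qD (e0.symm ((e1 (pB b)).1, s)) = pB b := by
      apply e1.injective
      rw [hqD, e0.apply_symm_apply, hs]
    obtain ⟨a, ha1, ha2⟩ := hA.surj (fB b) (e0.symm ((e1 (pB b)).1, s)) (by
      rw [hπ0', h1, hB.zero_eq])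
    refine ⟨a, ?_⟩
    apply hB.ext
    · rw [hq1, ha1]
    · rw [hq2, ha2, h1]
  · -- kernel
    intro a
    constructor
    · intro h
      have h1 : fA a = 0 := by rw [← hq1, h, map_zero]
      have h2 : qD (pA a) = 0 := by rw [← hq2, h, map_zero]
      have h4 := hqD (pA a)
      rw [h2, map_zero] at h4
      have h5 : (e0 (pA a)).1 = 0 := (congrArg Prod.fst h4).symm
      have h6 : qL (e0 (pA a)).2 = 0 := (congrArg Prod.snd h4).symm
      obtain ⟨c, hc⟩ := Submodule.mem_span_singleton.mp (qL_eq_zero.mp h6)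
      rw [hrad]
      refine ⟨c, h1, ?_⟩
      apply e0.injective
      rw [e0.apply_symm_apply]
      exact Prod.ext h5 hc.symm
    · intro ha
      obtain ⟨c, h1, h2⟩ := (hrad a).mp ha
      apply hB.ext
      · rw [hq1, h1, map_zero]
      · rw [hq2, h2, hqDu, map_zero]
  · -- the norm
    intro a
    have hqa : ‖q a‖ = max ‖fA a‖ (max ‖(e0 (pA a)).1‖ ‖qL (e0 (pA a)).2‖) := by
      rw [hB.norm_eq, hq1, hq2, hn1, hqD, Prod.norm_def]
    have hdist : ∀ r : A, ∀ c : ℂ, fA r = 0 → pA r = e0.symm (0, c • uvec) →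
        dist a r = max ‖fA a‖ (max ‖(e0 (pA a)).1‖ ‖(e0 (pA a)).2 - c • uvec‖) := by
      intro r c hr1 hr2
      rw [dist_eq_norm, hA.norm_eq, map_sub, map_sub, hr1, hr2, sub_zero, hn0, map_sub, e0.apply_symm_apply,
        Prod.norm_def]
      simp
    apply le_antisymm
    · rw [Metric.le_infDist ⟨0, zero_mem (radical A)⟩]
      intro r hr
      obtain ⟨c, hr1, hr2⟩ := (hrad r).mp hr
      rw [hqa, hdist r c hr1 hr2]
      apply max_le_max le_rfl
      apply max_le_max le_rfl
      have : qL (e0 (pA a)).2 = qL ((e0 (pA a)).2 - c • uvec) := by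
        have h0 : qL (c • uvec) = 0 := by
          rw [qL_eq_zero]
          exact Submodule.smul_mem _ _ (Submodule.mem_span_singleton_self uvec)
        rw [map_sub, h0, sub_zero]
      rw [this]
      exact qL_le _
    · apply le_of_forall_pos_le_add
      intro ε hε
      obtain ⟨c, hc⟩ := qL_norm_lt (e0 (pA a)).2 hε
      obtain ⟨r, hr1, hr2⟩ := hexr c
      have hr : r ∈ radical A := (hrad r).mpr ⟨c, hr1, hr2⟩
      refine (Metric.infDist_le_dist_of_mem (x := a) (s := (radical A : Set A)) hr).trans ?_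
      rw [hdist r c hr1 hr2, hqa]
      have h1 : ‖fA a‖ ≤ max ‖fA a‖ (max ‖(e0 (pA a)).1‖ ‖qL (e0 (pA a)).2‖) := le_max_left _ _
      have h2 : ‖(e0 (pA a)).1‖ ≤ max ‖fA a‖ (max ‖(e0 (pA a)).1‖ ‖qL (e0 (pA a)).2‖) :=
        (le_max_left _ _).trans (le_max_right _ _)
      have h3 : ‖qL (e0 (pA a)).2‖ ≤ max ‖fA a‖ (max ‖(e0 (pA a)).1‖ ‖qL (e0 (pA a)).2‖) :=
        (le_max_right _ _).trans (le_max_right _ _)
      apply max_le (by linarith)
      apply max_le (by linarith) (by linarith)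
  · exact hA.propertyS hone one_le_two hπ0 (nil_propertyS e0 hn0 hm0)
  · intro hS
    exact nil_not_propertyS e1 hn1 hm1 (hB.propertyS_down one_le_two hπ1 hS)


/-- There are a Banach algebra `A` whose Jacobson radical is finite-dimensional and a Banach algebra `B` which is
the quotient of `A` by its radical (a surjective homomorphism `q` from `A` onto `B` with kernel the radical of `A` such that
the norm of `q a` is the quotient norm), such that `A` has property (S) and `B` does not. -/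
theorem result :
    ∃ (A : Type) (_ : NonUnitalNormedRing A) (_ : NormedSpace ℂ A) (_ : IsScalarTower ℂ A A)
      (_ : SMulCommClass ℂ A A) (_ : CompleteSpace A)
      (B : Type) (_ : NonUnitalNormedRing B) (_ : NormedSpace ℂ B) (_ : IsScalarTower ℂ B B)
      (_ : SMulCommClass ℂ B B) (_ : CompleteSpace B) (q : A →ₙₐ[ℂ] B),
      FiniteDimensional ℂ (radical A) ∧
      Function.Surjective q ∧ (∀ a : A, q a = 0 ↔ a ∈ radical A) ∧
      (∀ a : A, ‖q a‖ = Metric.infDist a (radical A : Set A)) ∧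
      PropertyS A ∧ ¬ PropertyS B := by
  obtain ⟨D0, _, _, _, _, _, e0, hn0, hm0⟩ := exists_nil L1 L1 PM PM_norm
  obtain ⟨D1, _, _, _, _, _, e1, hn1, hm1⟩ := exists_nil L1 Gq QM QM_norm
  obtain ⟨π1, hπ1, hinj⟩ := exists_repr QM QM_norm e1 hn1 hm1
  exact main (B0 := (ℂ × L1 × Gq) →L[ℂ] (ℂ × L1 × Gq)) e0 hn0 hm0 e1 hn1 hm1
    ContinuousLinearMap.norm_id_le prim π1 hπ1 hinj

end Pool.Agent.Results.MP_a0c03c_an.FinDimRadical
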